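import Pool.Agent.Lib.MP_10e784_agQ.QDefs

/-!
# MP_10e784_ag: the plane quartics which violate the Hasse principle are dense
-/

set_option autoImplicit false

namespace HNQ

open MvPolynomial

/-- the plane curve `f = 0` has a point with coordinates in the field `K` -/
def HasZero (K : Type) [Field K] (f : MvPolynomial (Fin 3) ℤ) : Prop :=
  ∃ P : Fin 3 → K, P ≠ 0 ∧ aeval P f = 0

/-- The plane quartics `f = 0` over `ℚ` which are smooth, have points over `ℝ` and over all `ℚ_p`, but no point over any number field of odd degree, are Zariski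
dense in the space `ℙ¹⁴` of all plane quartics: for every nonzero polynomial `Φ` in the fifteen coefficients of a ternary quartic form there is such a form `f`, with
integral coefficients, and `Φ(f) ≠ 0`. -/
def IsDense : Prop :=
  ∀ Φ : MvPolynomial {m : Fin 3 →₀ ℕ // m.degree = 4} ℂ, Φ ≠ 0 → ∃ f : MvPolynomial (Fin 3) ℤ,
    f.IsHomogeneous 4 ∧ (∀ P : Fin 3 → ℂ, P ≠ 0 → ∃ i : Fin 3, aeval P (pderiv i f) ≠ 0) ∧
    HasZero ℝ f ∧ (∀ (p : ℕ) [Fact p.Prime], HasZero ℚ_[p] f) ∧
    (∀ (K : Type) [Field K] [NumberField K], Odd (Module.finrank ℚ K) → ¬ HasZero K f) ∧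
    eval (fun m => ((coeff m.1 f : ℤ) : ℂ)) Φ ≠ 0

end HNQ
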