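import Mathlib

/-! MP_10e784_ag: a criterion (Jacobian matrix of full rank at one point) for polynomials to be algebraically independent -/

set_option autoImplicit false

namespace HND

open MvPolynomial

/-- the chain rule -/
theorem chain {K : Type} [CommRing K] {σ τ : Type} [Fintype τ] (Ψ : τ → MvPolynomial σ K) (j : σ)
    (Φ : MvPolynomial τ K) :
    pderiv j (aeval Ψ Φ) = ∑ m, aeval Ψ (pderiv m Φ) * pderiv j (Ψ m) := by
  classical
  induction Φ using MvPolynomial.induction_on with
  | C a => simp
  | add p q hp hq =>
    simp only [map_add, hp, hq, add_mul, Finset.sum_add_distrib]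
  | mul_X p n hp =>
    simp only [map_mul, aeval_X, pderiv_mul, hp, pderiv_X]
    rw [Finset.sum_mul]
    have h : ∀ m, aeval Ψ (pderiv m p * X n + p * (Pi.single m 1 : τ → MvPolynomial τ K) n) * pderiv j (Ψ m) =
        aeval Ψ (pderiv m p) * pderiv j (Ψ m) * Ψ n +
          (if n = m then aeval Ψ p * pderiv j (Ψ m) else 0) := by
      intro m
      by_cases hm : n = m
      · subst hm
        simp only [Pi.single_eq_same, mul_one, map_add, map_mul, aeval_X, if_true]
        ring
      · rw [Pi.single_eq_of_ne hm, if_neg hm]
        simp only [mul_zero, add_zero, map_mul, aeval_X]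
        ring
    simp only [map_add, map_mul, aeval_X] at h ⊢
    rw [Finset.sum_congr rfl fun m _ => h m, Finset.sum_add_distrib, Finset.sum_ite_eq, if_pos (Finset.mem_univ n)]

theorem dominant {K : Type} [Field K] [CharZero K] {σ τ : Type} [Fintype σ] [Fintype τ] [DecidableEq τ]
    (Ψ : τ → MvPolynomial σ K) (p : σ → K) (N : τ → σ → K) (c : K) (hc : c ≠ 0)
    (h : ∀ n m, ∑ j, N n j * eval p (pderiv j (Ψ m)) = if n = m then c else 0)
    (Φ : MvPolynomial τ K) (hΦ : Φ ≠ 0) : aeval Ψ Φ ≠ 0 := by
  have hdet : ∀ u : τ → MvPolynomial σ K, (∀ j, ∑ m, u m * pderiv j (Ψ m) = 0) → u = 0 := by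
    intro u hu
    obtain ⟨M, hM⟩ : ∃ M : Matrix τ τ (MvPolynomial σ K), M = Matrix.of fun n m => ∑ j, C (N n j) * pderiv j (Ψ m) := ⟨_, rfl⟩
    have h1 : M.mulVec u = 0 := by
      funext n
      rw [hM, Matrix.mulVec, dotProduct]
      simp only [Matrix.of_apply, Finset.sum_mul, Pi.zero_apply]
      rw [Finset.sum_comm]
      refine Finset.sum_eq_zero fun j _ => ?_
      have h2 : ∑ m, C (N n j) * pderiv j (Ψ m) * u m = C (N n j) * ∑ m, u m * pderiv j (Ψ m) := by
        rw [Finset.mul_sum]
        exact Finset.sum_congr rfl fun m _ => by ring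
      rw [h2, hu, mul_zero]
    have h3 : M.det ≠ 0 := by
      intro h0
      have h4 : (eval p) M.det = c ^ Fintype.card τ := by
        rw [RingHom.map_det]
        have h5 : (eval p).mapMatrix M = Matrix.diagonal fun _ => c := by
          ext n m
          rw [hM]
          simp only [RingHom.mapMatrix_apply, Matrix.map_apply, Matrix.of_apply, map_sum, map_mul, eval_C, h,
            Matrix.diagonal_apply]
        rw [h5, Matrix.det_diagonal, Finset.prod_const, Finset.card_univ]
      rw [h0, map_zero] at h4
      exact pow_ne_zero _ hc h4.symm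
    exact Matrix.eq_zero_of_mulVec_eq_zero h3 h1
  have key : ∀ (n : ℕ) (Φ : MvPolynomial τ K), (∀ m ∈ Φ.support, m.degree ≤ n) → aeval Ψ Φ = 0 → Φ = 0 := by
    intro n
    induction n with
    | zero =>
      intro Φ hd h0
      have h1 : Φ = C (coeff 0 Φ) := by
        ext m
        rw [coeff_C]
        split_ifs with hm
        · rw [← hm]
        · by_contra h2
          have h3 := hd m (mem_support_iff.2 h2)
          rw [Nat.le_zero, Finsupp.degree_eq_zero_iff] at h3
          exact hm h3.symm
      rw [h1, aeval_C, algebraMap_eq] at h0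
      rw [h1, C_eq_zero.1 h0, C_0]
    | succ n ih =>
      intro Φ hd h0
      have hu := hdet (fun m => aeval Ψ (pderiv m Φ)) fun j => by
        rw [← chain, h0, map_zero]
      have hp : ∀ i, pderiv i Φ = 0 := by
        intro i
        refine ih _ (fun m hm => ?_) (congrFun hu i)
        rw [mem_support_iff, coeff_pderiv] at hm
        have h1 := hd _ (mem_support_iff.2 (left_ne_zero_of_mul hm))
        rw [map_add, Finsupp.degree_single] at h1
        omega
      have h1 : Φ = C (coeff 0 Φ) := by
        ext m
        rw [coeff_C]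
        split_ifs with hm
        · rw [← hm]
        · have h2 : ∃ i, m i ≠ 0 := by
            by_contra h3
            push Not at h3
            exact hm (Finsupp.ext fun i => (h3 i).symm)
          obtain ⟨i, hi⟩ := h2
          have h3 := congrArg (coeff (m - Finsupp.single i 1)) (hp i)
          rw [coeff_pderiv, coeff_zero] at h3
          have h4 : m - Finsupp.single i 1 + Finsupp.single i 1 = m :=
            Finsupp.sub_add_single_one_cancel hi
          rw [h4] at h3
          refine (mul_eq_zero.1 h3).resolve_right ?_
          exact Nat.cast_add_one_ne_zero _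
      rw [h1, aeval_C, algebraMap_eq] at h0
      rw [h1, C_eq_zero.1 h0, C_0]
  intro h0
  exact hΦ (key (Φ.support.sup fun m => m.degree) Φ (fun m hm => Finset.le_sup (f := fun m => m.degree) hm) h0)

end HND
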