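import Mathlib

/-! MP_10e784_ag: plane quartics `A² = v w` in general position: the tangent space of the family of all `(A² - v w) ∘ g` at one point -/

set_option autoImplicit false

namespace HND

/-- the value of the quartic `(A² - v w) ∘ g` at `X`, where `s` are the parameters: the coefficients of `A`, of `v` (middle coefficient `1`) and `w`, and four entries of `g` -/
def ps {S : Type} [CommRing S] (s : Fin 15 → S) (x y z : S) : S :=
  (s 0 * (s 13 * x + s 14 * y + z) ^ 2 + s 1 * (x + s 11 * y) * (s 13 * x + s 14 * y + z) +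
      s 2 * (s 12 * x + y) * (s 13 * x + s 14 * y + z) + s 3 * (x + s 11 * y) * (s 12 * x + y) +
      s 4 * (x + s 11 * y) ^ 2 + s 5 * (s 12 * x + y) ^ 2) ^ 2 -
    (s 6 * (x + s 11 * y) ^ 2 + (x + s 11 * y) * (s 13 * x + s 14 * y + z) + s 7 * (s 13 * x + s 14 * y + z) ^ 2) *
      (s 8 * (s 12 * x + y) ^ 2 + s 9 * (s 12 * x + y) * (s 13 * x + s 14 * y + z) + s 10 * (s 13 * x + s 14 * y + z) ^ 2)

/-- the base point -/
def pt (j : Fin 15) : ℤ := if j = 4 ∨ j = 5 ∨ j = 8 ∨ j = 10 then 1 else 0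

/-- the fifteen directions -/
def dir : ℕ → ℕ → Fin 15 → ℤ
  | 0, 0 => ![-1, 0, 0, 0, 0, 0, 1, -2, 0, 0, 0, 0, 0, -1, 0]
  | 0, 1 => ![0, 0, -1, 6, 0, 0, 0, 0, 0, 0, 0, -2, -1, 0, 0]
  | 0, 2 => ![1, 0, 0, 0, 0, 0, -1, 0, 0, 0, 0, 0, 0, 1, 0]
  | 0, 3 => ![0, 0, 1, -2, 0, 0, 0, 0, 0, 0, 0, 0, 1, 0, 0]
  | 0, 4 => ![0, 0, 0, 0, 0, 1, 3, 0, 0, 0, 0, 0, 0, -1, 0]
  | 1, 0 => ![0, 0, 0, 0, 0, 0, 0, 0, 0, 0, -2, 0, 0, 0, 0]
  | 1, 1 => ![0, 0, 0, 0, 0, 0, 0, 0, 0, -2, 0, 0, 0, 0, 0]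
  | 1, 2 => ![0, 0, 0, 0, 0, 0, 0, 0, -2, 0, 0, 0, 0, 0, 0]
  | 1, 3 => ![0, 0, 0, 0, 0, 0, 0, 0, 0, 6, 0, 0, 0, 0, -2]
  | 2, 0 => ![0, 0, 0, 0, 0, 0, 1, 0, 0, 0, 0, 0, 0, -1, 0]
  | 2, 1 => ![0, 0, 0, 2, 0, 0, 0, 0, 0, 0, 0, 0, -1, 0, 0]
  | 2, 2 => ![0, 0, 0, 0, 0, 0, -3, 0, 0, 0, 0, 0, 0, 1, 0]
  | 3, 0 => ![0, 1, 0, 0, 0, 0, 0, 0, 2, 0, 0, 0, 0, 0, 0]
  | 3, 1 => ![0, 0, 0, 1, 0, 0, 0, 0, 0, -6, 0, 0, 0, 0, 2]
  | 4, 0 => ![0, 0, 0, 0, 1, 0, 3, 0, 0, 0, 0, 0, 0, -1, 0]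
  | _, _ => 0

private theorem tan_0_0 {S : Type} [CommRing S] (x y z e : S) (he : e ^ 2 = 0) :
    ps (fun j => (pt j : S) + (dir 0 0 j : S) * e) x y z = ps (fun j => (pt j : S)) x y z + 2 * e * (x ^ 0 * y ^ 0 * z ^ 4) := by
  simp [ps, pt, dir, Fin.ext_iff]
  linear_combination (z^4 - 8*x*z^3 - 4*x*z^3*e + 12*x^2*z^2*e + 6*x^2*z^2*e^2 + 3*x^3*z - 8*x^3*z*e^2 - 4*x^3*z*e^3 - 2*x^4*e + 2*x^4*e^3 + x^4*e^4) * he

private theorem tan_0_1 {S : Type} [CommRing S] (x y z e : S) (he : e ^ 2 = 0) :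
    ps (fun j => (pt j : S) + (dir 0 1 j : S) * e) x y z = ps (fun j => (pt j : S)) x y z + 2 * e * (x ^ 0 * y ^ 1 * z ^ 3) := by
  simp [ps, pt, dir, Fin.ext_iff]
  linear_combination (y^2*z^2 + 16*y^3*z*e - 16*y^4 + 64*y^4*e^2 - 2*x*y*z^2*e - 2*x*y^2*z - 40*x*y^2*z*e^2 + 24*x*y^3*e - 192*x*y^3*e^3 + x^2*z^2*e^2 + 12*x^2*y*z*e + 24*x^2*y*z*e^3 - 26*x^2*y^2 + 80*x^2*y^2*e^2 + 144*x^2*y^2*e^4 + x^3*z - 10*x^3*z*e^2 + 24*x^3*y*e - 120*x^3*y*e^3 - 10*x^4 + 25*x^4*e^2) * he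

private theorem tan_0_2 {S : Type} [CommRing S] (x y z e : S) (he : e ^ 2 = 0) :
    ps (fun j => (pt j : S) + (dir 0 2 j : S) * e) x y z = ps (fun j => (pt j : S)) x y z + 2 * e * (x ^ 0 * y ^ 2 * z ^ 2) := by
  simp [ps, pt, dir, Fin.ext_iff]
  linear_combination (z^4 + 4*x*z^3*e + 4*x*y^2*z + 6*x^2*z^2*e^2 + 2*x^2*y^2*e + 3*x^3*z + 4*x^3*z*e^3 + 2*x^4*e + x^4*e^4) * he

private theorem tan_0_3 {S : Type} [CommRing S] (x y z e : S) (he : e ^ 2 = 0) :
    ps (fun j => (pt j : S) + (dir 0 3 j : S) * e) x y z = ps (fun j => (pt j : S)) x y z + 2 * e * (x ^ 0 * y ^ 3 * z ^ 1) := by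
  simp [ps, pt, dir, Fin.ext_iff]
  linear_combination (y^2*z^2 + 2*x*y*z^2*e + 2*x*y^2*z + x^2*z^2*e^2 - 2*x^2*y*z*e - 2*x^2*y^2 + x^3*z - 2*x^3*z*e^2 - 2*x^4 + x^4*e^2) * he

private theorem tan_0_4 {S : Type} [CommRing S] (x y z e : S) (he : e ^ 2 = 0) :
    ps (fun j => (pt j : S) + (dir 0 4 j : S) * e) x y z = ps (fun j => (pt j : S)) x y z + 2 * e * (x ^ 0 * y ^ 4 * z ^ 0) := by
  simp [ps, pt, dir, Fin.ext_iff]
  linear_combination (y^4 + 3*x^3*z - 2*x^4*e) * he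

private theorem tan_1_0 {S : Type} [CommRing S] (x y z e : S) (he : e ^ 2 = 0) :
    ps (fun j => (pt j : S) + (dir 1 0 j : S) * e) x y z = ps (fun j => (pt j : S)) x y z + 2 * e * (x ^ 1 * y ^ 0 * z ^ 3) := by
  simp [ps, pt, dir, Fin.ext_iff]
  linear_combination (0) * he

private theorem tan_1_1 {S : Type} [CommRing S] (x y z e : S) (he : e ^ 2 = 0) :
    ps (fun j => (pt j : S) + (dir 1 1 j : S) * e) x y z = ps (fun j => (pt j : S)) x y z + 2 * e * (x ^ 1 * y ^ 1 * z ^ 2) := by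
  simp [ps, pt, dir, Fin.ext_iff]
  linear_combination (0) * he

private theorem tan_1_2 {S : Type} [CommRing S] (x y z e : S) (he : e ^ 2 = 0) :
    ps (fun j => (pt j : S) + (dir 1 2 j : S) * e) x y z = ps (fun j => (pt j : S)) x y z + 2 * e * (x ^ 1 * y ^ 2 * z ^ 1) := by
  simp [ps, pt, dir, Fin.ext_iff]
  linear_combination (0) * he

private theorem tan_1_3 {S : Type} [CommRing S] (x y z e : S) (he : e ^ 2 = 0) :
    ps (fun j => (pt j : S) + (dir 1 3 j : S) * e) x y z = ps (fun j => (pt j : S)) x y z + 2 * e * (x ^ 1 * y ^ 3 * z ^ 0) := by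
  simp [ps, pt, dir, Fin.ext_iff]
  linear_combination (12*x*y^2*z - 16*x*y^3*e) * he

private theorem tan_2_0 {S : Type} [CommRing S] (x y z e : S) (he : e ^ 2 = 0) :
    ps (fun j => (pt j : S) + (dir 2 0 j : S) * e) x y z = ps (fun j => (pt j : S)) x y z + 2 * e * (x ^ 2 * y ^ 0 * z ^ 2) := by
  simp [ps, pt, dir, Fin.ext_iff]
  linear_combination (-x^3*z) * he

private theorem tan_2_1 {S : Type} [CommRing S] (x y z e : S) (he : e ^ 2 = 0) :
    ps (fun j => (pt j : S) + (dir 2 1 j : S) * e) x y z = ps (fun j => (pt j : S)) x y z + 2 * e * (x ^ 2 * y ^ 1 * z ^ 1) := by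
  simp [ps, pt, dir, Fin.ext_iff]
  linear_combination (-2*x^2*y^2 - x^3*z - 2*x^4 + x^4*e^2) * he

private theorem tan_2_2 {S : Type} [CommRing S] (x y z e : S) (he : e ^ 2 = 0) :
    ps (fun j => (pt j : S) + (dir 2 2 j : S) * e) x y z = ps (fun j => (pt j : S)) x y z + 2 * e * (x ^ 2 * y ^ 2 * z ^ 0) := by
  simp [ps, pt, dir, Fin.ext_iff]
  linear_combination (3*x^3*z + 2*x^4*e) * he

private theorem tan_3_0 {S : Type} [CommRing S] (x y z e : S) (he : e ^ 2 = 0) :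
    ps (fun j => (pt j : S) + (dir 3 0 j : S) * e) x y z = ps (fun j => (pt j : S)) x y z + 2 * e * (x ^ 3 * y ^ 0 * z ^ 1) := by
  simp [ps, pt, dir, Fin.ext_iff]
  linear_combination (x^2*z^2) * he

private theorem tan_3_1 {S : Type} [CommRing S] (x y z e : S) (he : e ^ 2 = 0) :
    ps (fun j => (pt j : S) + (dir 3 1 j : S) * e) x y z = ps (fun j => (pt j : S)) x y z + 2 * e * (x ^ 3 * y ^ 1 * z ^ 0) := by
  simp [ps, pt, dir, Fin.ext_iff]
  linear_combination (12*x*y^2*z + 16*x*y^3*e + x^2*y^2) * he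

private theorem tan_4_0 {S : Type} [CommRing S] (x y z e : S) (he : e ^ 2 = 0) :
    ps (fun j => (pt j : S) + (dir 4 0 j : S) * e) x y z = ps (fun j => (pt j : S)) x y z + 2 * e * (x ^ 4 * y ^ 0 * z ^ 0) := by
  simp [ps, pt, dir, Fin.ext_iff]
  linear_combination (3*x^3*z + x^4 - 2*x^4*e) * he

theorem tan {S : Type} [CommRing S] (x y z e : S) (he : e ^ 2 = 0) (a b c : ℕ) (h : a + b + c = 4) :
    ps (fun j => (pt j : S) + (dir a b j : S) * e) x y z = ps (fun j => (pt j : S)) x y z + 2 * e * (x ^ a * y ^ b * z ^ c) := by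
  have ha : a = 0 ∨ a = 1 ∨ a = 2 ∨ a = 3 ∨ a = 4 := by omega
  have hb : b = 0 ∨ b = 1 ∨ b = 2 ∨ b = 3 ∨ b = 4 := by omega
  rcases ha with ha | ha | ha | ha | ha
  · rcases hb with hb | hb | hb | hb | hb
    · have hc : c = 4 := by omega
      subst ha hb hc
      exact tan_0_0 x y z e he
    · have hc : c = 3 := by omega
      subst ha hb hc
      exact tan_0_1 x y z e he
    · have hc : c = 2 := by omega
      subst ha hb hc
      exact tan_0_2 x y z e he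
    · have hc : c = 1 := by omega
      subst ha hb hc
      exact tan_0_3 x y z e he
    · have hc : c = 0 := by omega
      subst ha hb hc
      exact tan_0_4 x y z e he
  · rcases hb with hb | hb | hb | hb | hb
    · have hc : c = 3 := by omega
      subst ha hb hc
      exact tan_1_0 x y z e he
    · have hc : c = 2 := by omega
      subst ha hb hc
      exact tan_1_1 x y z e he
    · have hc : c = 1 := by omega
      subst ha hb hc
      exact tan_1_2 x y z e he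
    · have hc : c = 0 := by omega
      subst ha hb hc
      exact tan_1_3 x y z e he
    · omega
  · rcases hb with hb | hb | hb | hb | hb
    · have hc : c = 2 := by omega
      subst ha hb hc
      exact tan_2_0 x y z e he
    · have hc : c = 1 := by omega
      subst ha hb hc
      exact tan_2_1 x y z e he
    · have hc : c = 0 := by omega
      subst ha hb hc
      exact tan_2_2 x y z e he
    · omega
    · omega
  · rcases hb with hb | hb | hb | hb | hb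
    · have hc : c = 1 := by omega
      subst ha hb hc
      exact tan_3_0 x y z e he
    · have hc : c = 0 := by omega
      subst ha hb hc
      exact tan_3_1 x y z e he
    · omega
    · omega
    · omega
  · rcases hb with hb | hb | hb | hb | hb
    · have hc : c = 0 := by omega
      subst ha hb hc
      exact tan_4_0 x y z e he
    · omega
    · omega
    · omega
    · omega

end HND
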