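import Pool.Agent.Lib.MP_10e784_agDM.Dom
import Pool.Agent.Lib.MP_10e784_agDM.Tan

/-! MP_10e784_ag: plane quartics `A² = v w` in general position are dense in the space of all plane quartics -/

set_option autoImplicit false

namespace HND

open MvPolynomial

/-- the monomials of degree four -/
abbrev M4 : Type := {m : Fin 3 →₀ ℕ // m.degree = 4}

/-- the derivative of a polynomial function in the direction `N`, by dual numbers -/
theorem dual {K : Type} [Field K] {σ : Type} [Fintype σ] (p N : σ → K) (P : MvPolynomial σ K) :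
    aeval (fun j => (TrivSqZeroExt.inl (p j) + TrivSqZeroExt.inr (N j) : DualNumber K)) P =
      TrivSqZeroExt.inl (eval p P) + TrivSqZeroExt.inr (∑ j, N j * eval p (pderiv j P)) := by
  classical
  induction P using MvPolynomial.induction_on with
  | C a => simp [TrivSqZeroExt.algebraMap_eq_inl]
  | add P Q hP hQ =>
    rw [map_add, hP, hQ]
    ext <;> simp [mul_add, Finset.sum_add_distrib]
  | mul_X P n hP =>
    have key : ∑ j, N j * eval p (pderiv j (P * X n)) = (∑ j, N j * eval p (pderiv j P)) * p n + eval p P * N n := by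
      have h1 : ∀ j, N j * eval p (pderiv j (P * X n)) =
          N j * eval p (pderiv j P) * p n + if j = n then eval p P * N j else 0 := by
        intro j
        rw [pderiv_mul, pderiv_X, map_add, map_mul, map_mul, eval_X]
        by_cases hj : j = n
        · subst hj
          rw [Pi.single_eq_same, map_one, if_pos rfl]
          ring
        · rw [Pi.single_eq_of_ne (fun h => hj h.symm), map_zero, if_neg hj]
          ring
      rw [Finset.sum_congr rfl fun j _ => h1 j, Finset.sum_add_distrib, Finset.sum_ite_eq', if_pos (Finset.mem_univ n),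
        ← Finset.sum_mul]
    rw [map_mul, hP, aeval_X, key]
    ext
    · simp
    · simp only [TrivSqZeroExt.snd_mul, TrivSqZeroExt.fst_add, TrivSqZeroExt.fst_inl, TrivSqZeroExt.fst_inr,
        TrivSqZeroExt.snd_add, TrivSqZeroExt.snd_inl, TrivSqZeroExt.snd_inr, add_zero, zero_add, smul_eq_mul,
        MulOpposite.smul_eq_mul_unop, MulOpposite.unop_op]
      ring

theorem ps_map {S T : Type} [CommRing S] [CommRing T] (f : S →+* T) (s : Fin 15 → S) (x y z : S) :
    f (ps s x y z) = ps (fun j => f (s j)) (f x) (f y) (f z) := by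
  simp [ps]

/-- the fifteen coefficients as polynomials in the parameters -/
noncomputable def co (K : Type) [Field K] (m : M4) : MvPolynomial (Fin 15) K :=
  coeff m.1 (ps (fun j => C (X j)) (X 0) (X 1) (X 2) : MvPolynomial (Fin 3) (MvPolynomial (Fin 15) K))

theorem co_aeval {K : Type} [Field K] {R : Type} [CommRing R] [Algebra K R] (s : Fin 15 → R) (m : M4) :
    aeval s (co K m) = coeff m.1 (ps (fun j => C (s j)) (X 0) (X 1) (X 2) : MvPolynomial (Fin 3) R) := by
  have h := ps_map (MvPolynomial.map (σ := Fin 3) ((aeval s : MvPolynomial (Fin 15) K →ₐ[K] R) : MvPolynomial (Fin 15) K →+* R))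
    (fun j => C (X j)) (X 0) (X 1) (X 2)
  simp only [map_C, map_X, RingHom.coe_coe, aeval_X] at h
  rw [← h, coeff_map]
  rfl

theorem rank {K : Type} [Field K] (n m : M4) :
    ∑ j, (dir (n.1 0) (n.1 1) j : K) * eval (fun j => (pt j : K)) (pderiv j (co K m)) = if n = m then 2 else 0 := by
  have h1 := dual (fun j => (pt j : K)) (fun j => (dir (n.1 0) (n.1 1) j : K)) (co K m)
  have h2 := co_aeval (K := K) (fun j => (TrivSqZeroExt.inl (pt j : K) + TrivSqZeroExt.inr (dir (n.1 0) (n.1 1) j : K) : DualNumber K)) m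
  rw [h1] at h2
  have h3 := congrArg TrivSqZeroExt.snd h2
  rw [TrivSqZeroExt.snd_add, TrivSqZeroExt.snd_inl, TrivSqZeroExt.snd_inr, zero_add] at h3
  rw [h3]
  have he : (C (DualNumber.eps : DualNumber K) : MvPolynomial (Fin 3) (DualNumber K)) ^ 2 = 0 := by
    rw [← C_pow, pow_two, DualNumber.eps_mul_eps, C_0]
  have hn : n.1 0 + n.1 1 + n.1 2 = 4 := by
    have := n.2
    rwa [Finsupp.degree_eq_sum, Fin.sum_univ_three] at this
  have h4 := tan (X 0 : MvPolynomial (Fin 3) (DualNumber K)) (X 1) (X 2) (C DualNumber.eps) he _ _ _ hn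
  have h5 : (fun j => (C (TrivSqZeroExt.inl (pt j : K) + TrivSqZeroExt.inr (dir (n.1 0) (n.1 1) j : K) : DualNumber K) :
      MvPolynomial (Fin 3) (DualNumber K))) =
      fun j => ((pt j : ℤ) : MvPolynomial (Fin 3) (DualNumber K)) + ((dir (n.1 0) (n.1 1) j : ℤ) : MvPolynomial (Fin 3) (DualNumber K)) * C DualNumber.eps := by
    funext j
    have e1 : (TrivSqZeroExt.inl (pt j : K) + TrivSqZeroExt.inr (dir (n.1 0) (n.1 1) j : K) : DualNumber K) =
        (pt j : DualNumber K) + (dir (n.1 0) (n.1 1) j : DualNumber K) * DualNumber.eps := by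
      ext <;> simp
    rw [e1, C_add, C_mul]
    simp
  rw [h5, h4, coeff_add, TrivSqZeroExt.snd_add]
  have h6 : (ps (fun j => ((pt j : ℤ) : MvPolynomial (Fin 3) (DualNumber K))) (X 0) (X 1) (X 2)) =
      MvPolynomial.map (TrivSqZeroExt.inlHom K K) (ps (fun j => ((pt j : ℤ) : MvPolynomial (Fin 3) K)) (X 0) (X 1) (X 2)) := by
    have h6' := ps_map (S := MvPolynomial (Fin 3) K) (T := MvPolynomial (Fin 3) (DualNumber K))
      (MvPolynomial.map (TrivSqZeroExt.inlHom K K))
      (fun j => ((pt j : ℤ) : MvPolynomial (Fin 3) K)) (X 0) (X 1) (X 2)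
    simp only [map_intCast, map_X] at h6'
    exact h6'.symm
  rw [h6, coeff_map]
  have h7 : (X 0 ^ (n.1 0) * X 1 ^ (n.1 1) * X 2 ^ (n.1 2) : MvPolynomial (Fin 3) (DualNumber K)) = monomial n.1 1 := by
    rw [monomial_eq, C_1, one_mul, Finsupp.prod_fintype _ _ (fun _ => pow_zero _), Fin.prod_univ_three]
  have h8 : (2 * C DualNumber.eps * monomial n.1 1 : MvPolynomial (Fin 3) (DualNumber K)) = monomial n.1 (2 * DualNumber.eps) := by
    rw [show (2 : MvPolynomial (Fin 3) (DualNumber K)) = C 2 from (map_ofNat C 2).symm, ← C_mul, C_mul_monomial, mul_one]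
  rw [h7, h8, coeff_monomial]
  have h9 : (n.1 = m.1) = (n = m) := by rw [Subtype.ext_iff]
  simp only [h9]
  by_cases hnm : n = m
  · rw [if_pos hnm, if_pos hnm]
    rw [two_mul, TrivSqZeroExt.snd_add, DualNumber.snd_eps]
    have h10 : TrivSqZeroExt.snd (coeff m.1 (MvPolynomial.map (TrivSqZeroExt.inlHom K K)
      (ps (fun j => ((pt j : ℤ) : MvPolynomial (Fin 3) K)) (X 0) (X 1) (X 2)))) = 0 := by
      rw [coeff_map]
      simp
    rw [coeff_map] at h10
    rw [h10]
    norm_num
  · rw [if_neg hnm, if_neg hnm]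
    simp

end HND
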