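import Pool.Agent.Lib.MP_10e784_agDM.Defs
import Pool.Agent.Lib.MP_10e784_agDM.Gen

/-! MP_10e784_ag: substitution of an integral matrix `(1 a 0; b 1 0; c d 1)` in the quartics `A² - v w` -/

set_option autoImplicit false

namespace HND

open MvPolynomial HNQ

/-- the value of the quartic `(A² - v w) ∘ g`; `s` are the coefficients of `A`, `v`, `w`, and `g` the four entries of the matrix -/
def qs {S : Type} [CommRing S] (s : Fin 12 → S) (g : Fin 4 → S) (x y z : S) : S :=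
  (s 0 * (g 2 * x + g 3 * y + z) ^ 2 + s 1 * (x + g 0 * y) * (g 2 * x + g 3 * y + z) +
      s 2 * (g 1 * x + y) * (g 2 * x + g 3 * y + z) + s 3 * (x + g 0 * y) * (g 1 * x + y) +
      s 4 * (x + g 0 * y) ^ 2 + s 5 * (g 1 * x + y) ^ 2) ^ 2 -
    (s 6 * (x + g 0 * y) ^ 2 + s 7 * (x + g 0 * y) * (g 2 * x + g 3 * y + z) + s 8 * (g 2 * x + g 3 * y + z) ^ 2) *
      (s 9 * (g 1 * x + y) ^ 2 + s 10 * (g 1 * x + y) * (g 2 * x + g 3 * y + z) + s 11 * (g 2 * x + g 3 * y + z) ^ 2)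

theorem qs_map {S T : Type} [CommRing S] [CommRing T] (f : S →+* T) (s : Fin 12 → S) (g : Fin 4 → S) (x y z : S) :
    f (qs s g x y z) = qs (fun j => f (s j)) (fun j => f (g j)) (f x) (f y) (f z) := by
  simp [qs]

/-- the coefficients of a quartic of the family -/
def cf (q : Dt) : Fin 12 → ℤ :=
  ![q.2 0, q.2 1, q.2 2, q.2 3, q.2 4, q.2 5, q.1.1.1, q.1.1.2.1, q.1.1.2.2, q.1.2.1, q.1.2.2.1, q.1.2.2.2]

/-- the linear forms `g x` -/
noncomputable def lf (g : Fin 4 → ℤ) : Fin 3 → MvPolynomial (Fin 3) ℤ :=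
  ![X 0 + C (g 0) * X 1, C (g 1) * X 0 + X 1, C (g 2) * X 0 + C (g 3) * X 1 + X 2]

/-- the quartic `(A² - v w) ∘ g` -/
noncomputable def fg (q : Dt) (g : Fin 4 → ℤ) : MvPolynomial (Fin 3) ℤ := aeval (lf g) (quartic q)

theorem fg_eq (q : Dt) (g : Fin 4 → ℤ) :
    fg q g = qs (fun j => C (cf q j)) (fun j => C (g j)) (X 0) (X 1) (X 2) := by
  unfold fg quartic lf qs vA vV cf
  simp

/-- the image of a point -/
def gp {K : Type} [Field K] (g : Fin 4 → ℤ) (P : Fin 3 → K) : Fin 3 → K :=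
  ![P 0 + (g 0 : K) * P 1, (g 1 : K) * P 0 + P 1, (g 2 : K) * P 0 + (g 3 : K) * P 1 + P 2]

theorem aeval_fg {K : Type} [Field K] (q : Dt) (g : Fin 4 → ℤ) (P : Fin 3 → K) :
    aeval P (fg q g) = aeval (gp g P) (quartic q) := by
  unfold fg
  have h : (aeval P).comp (aeval (lf g)) = (aeval (gp g P) : MvPolynomial (Fin 3) ℤ →ₐ[ℤ] K) := by
    apply algHom_ext
    intro i
    fin_cases i <;> simp [lf, gp]
  exact DFunLike.congr_fun h (quartic q)

theorem gp_ne {K : Type} [Field K] [CharZero K] (g : Fin 4 → ℤ) (hg : 1 - g 0 * g 1 ≠ 0) (P : Fin 3 → K) (hP : P ≠ 0) :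
    gp g P ≠ 0 := by
  intro h
  have hg' : (1 - (g 0 : K) * g 1) ≠ 0 := by exact_mod_cast hg
  have h0 : P 0 + (g 0 : K) * P 1 = 0 := congrFun h 0
  have h1 : (g 1 : K) * P 0 + P 1 = 0 := congrFun h 1
  have h2 : (g 2 : K) * P 0 + (g 3 : K) * P 1 + P 2 = 0 := congrFun h 2
  have e0 : P 0 = 0 := (mul_eq_zero.1 (by linear_combination h0 - (g 0 : K) * h1 :
    (1 - (g 0 : K) * g 1) * P 0 = 0)).resolve_left hg'
  have e1 : P 1 = 0 := by rw [e0] at h1; simpa using h1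
  have e2 : P 2 = 0 := by rw [e0, e1] at h2; simpa using h2
  apply hP
  funext i
  fin_cases i
  · exact e0
  · exact e1
  · exact e2

theorem gp_surj {K : Type} [Field K] [CharZero K] (g : Fin 4 → ℤ) (hg : 1 - g 0 * g 1 ≠ 0) (P : Fin 3 → K) :
    ∃ R : Fin 3 → K, gp g R = P := by
  have hg' : (1 - (g 0 : K) * g 1) ≠ 0 := by exact_mod_cast hg
  refine ⟨![(P 0 - g 0 * P 1) / (1 - g 0 * g 1), (P 1 - g 1 * P 0) / (1 - g 0 * g 1),
    P 2 - g 2 * ((P 0 - g 0 * P 1) / (1 - g 0 * g 1)) - g 3 * ((P 1 - g 1 * P 0) / (1 - g 0 * g 1))], ?_⟩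
  have hx : (P 0 - (g 0 : K) * P 1) / (1 - g 0 * g 1) + g 0 * ((P 1 - g 1 * P 0) / (1 - g 0 * g 1)) = P 0 := by
    rw [mul_div_assoc', ← add_div, div_eq_iff hg']
    ring
  have hy : (g 1 : K) * ((P 0 - g 0 * P 1) / (1 - g 0 * g 1)) + (P 1 - g 1 * P 0) / (1 - g 0 * g 1) = P 1 := by
    rw [mul_div_assoc', ← add_div, div_eq_iff hg']
    ring
  funext i
  fin_cases i
  · exact hx
  · exact hy
  · simp [gp]

theorem hasZero_fg {K : Type} [Field K] [CharZero K] (q : Dt) (g : Fin 4 → ℤ) (hg : 1 - g 0 * g 1 ≠ 0) :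
    HasZero K (fg q g) ↔ HasPoint K q := by
  constructor
  · rintro ⟨P, hP, h⟩
    exact ⟨gp g P, gp_ne g hg P hP, by rw [← aeval_fg, h]⟩
  · rintro ⟨P, hP, h⟩
    obtain ⟨R, hR⟩ := gp_surj g hg P
    refine ⟨R, ?_, by rw [aeval_fg, hR, h]⟩
    rintro rfl
    apply hP
    rw [← hR]
    funext i
    fin_cases i <;> simp [gp]

theorem smooth_fg (q : Dt) (hq : Smooth q) (g : Fin 4 → ℤ) (hg : 1 - g 0 * g 1 ≠ 0) (P : Fin 3 → ℂ) (hP : P ≠ 0) :
    ∃ i : Fin 3, aeval P (pderiv i (fg q g)) ≠ 0 := by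
  by_contra hcon
  push Not at hcon
  obtain ⟨i, hi⟩ := hq (gp g P) (gp_ne g hg P hP)
  have hch : ∀ j, aeval P (pderiv j (fg q g)) =
      ∑ m, aeval (gp g P) (pderiv m (quartic q)) * aeval P (pderiv j (lf g m)) := by
    intro j
    unfold fg
    rw [chain, map_sum]
    refine Finset.sum_congr rfl fun m _ => ?_
    rw [map_mul]
    congr 1
    have h : (aeval P).comp (aeval (lf g)) = (aeval (gp g P) : MvPolynomial (Fin 3) ℤ →ₐ[ℤ] ℂ) := by
      apply algHom_ext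
      intro i
      fin_cases i <;> simp [lf, gp]
    exact DFunLike.congr_fun h _
  have hg' : (1 - (g 0 : ℂ) * g 1) ≠ 0 := by exact_mod_cast hg
  have h0 := hcon 0
  have h1 := hcon 1
  have h2 := hcon 2
  rw [hch, Fin.sum_univ_three] at h0 h1 h2
  simp [lf, pderiv_X] at h0 h1 h2
  have e2 := h2
  have e0 : aeval (gp g P) (pderiv 0 (quartic q)) = 0 := by
    have h3 : (1 - (g 0 : ℂ) * g 1) * aeval (gp g P) (pderiv 0 (quartic q)) = 0 := by
      rw [e2] at h0 h1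
      linear_combination h0 - (g 1 : ℂ) * h1
    exact (mul_eq_zero.1 h3).resolve_left hg'
  have e1 : aeval (gp g P) (pderiv 1 (quartic q)) = 0 := by
    rw [e2, e0] at h1
    simpa using h1
  fin_cases i
  · exact hi e0
  · exact hi e1
  · exact hi e2

theorem hom_fg (q : Dt) (g : Fin 4 → ℤ) : (fg q g).IsHomogeneous 4 := by
  have hL0 : (X 0 + C (g 0) * X 1 : MvPolynomial (Fin 3) ℤ).IsHomogeneous 1 :=
    (isHomogeneous_X _ _).add ((isHomogeneous_C _ _).mul (isHomogeneous_X _ _))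
  have hL1 : (C (g 1) * X 0 + X 1 : MvPolynomial (Fin 3) ℤ).IsHomogeneous 1 :=
    ((isHomogeneous_C _ _).mul (isHomogeneous_X _ _)).add (isHomogeneous_X _ _)
  have hL2 : (C (g 2) * X 0 + C (g 3) * X 1 + X 2 : MvPolynomial (Fin 3) ℤ).IsHomogeneous 1 :=
    (((isHomogeneous_C _ _).mul (isHomogeneous_X _ _)).add ((isHomogeneous_C _ _).mul (isHomogeneous_X _ _))).add
      (isHomogeneous_X _ _)
  have h2 : ∀ (c : ℤ) (f h : MvPolynomial (Fin 3) ℤ), f.IsHomogeneous 1 → h.IsHomogeneous 1 → (C c * f * h).IsHomogeneous 2 :=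
    fun c f h hf hh => ((isHomogeneous_C _ c).mul hf).mul hh
  have h3 : ∀ (c : ℤ) (f : MvPolynomial (Fin 3) ℤ), f.IsHomogeneous 1 → (C c * f ^ 2).IsHomogeneous 2 :=
    fun c f hf => (isHomogeneous_C _ c).mul (hf.pow 2)
  rw [fg_eq]
  unfold qs
  refine IsHomogeneous.sub ?_ ?_
  · exact (((((((h3 _ _ hL2).add (h2 _ _ _ hL0 hL2)).add (h2 _ _ _ hL1 hL2)).add (h2 _ _ _ hL0 hL1)).add (h3 _ _ hL0)).add
      (h3 _ _ hL1))).pow 2
  · exact (((h3 _ _ hL0).add (h2 _ _ _ hL0 hL2)).add (h3 _ _ hL2)).mul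
      (((h3 _ _ hL1).add (h2 _ _ _ hL1 hL2)).add (h3 _ _ hL2))

end HND
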