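import Mathlib

/-! MP_10e784_ag: the zeros of a polynomial in a box (Schwartz-Zippel) -/

set_option autoImplicit false

namespace HND

open MvPolynomial Finset

/-- A nonzero polynomial has at most `D / N` times the number of all points as zeros in a box of integral points all of whose sides are at least `N`. -/
theorem sz_box {K : Type} [Field K] [CharZero K] {ι : Type} [Fintype ι] {Ψ : MvPolynomial ι K} (hΨ : Ψ ≠ 0) :
    ∃ D : ℕ, ∀ (b : ι → ℕ) (N : ℕ), 0 < N → (∀ i, N ≤ b i) →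
      ({a : ι → ℤ | (∀ i, |a i| ≤ b i) ∧ eval (fun i => (a i : K)) Ψ = 0}.Finite) ∧
      ({a : ι → ℤ | (∀ i, |a i| ≤ b i) ∧ eval (fun i => (a i : K)) Ψ = 0}.ncard) * N ≤
        D * ∏ i, (2 * b i + 1) := by
  classical
  obtain ⟨n, ⟨e⟩⟩ : ∃ n, Nonempty (ι ≃ Fin n) := ⟨_, ⟨Fintype.equivFin ι⟩⟩
  have hp : rename e Ψ ≠ 0 := by
    intro h
    exact hΨ (rename_injective e e.injective (by rw [h, map_zero]))
  refine ⟨∑ j, (rename e Ψ).degreeOf j, fun b N hN hb => ?_⟩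
  obtain ⟨S, hS⟩ : ∃ S : Fin n → Finset K, S = fun j =>
      (Finset.Icc (-(b (e.symm j) : ℤ)) (b (e.symm j))).image (fun z : ℤ => (z : K)) := ⟨_, rfl⟩
  have hSc : ∀ j, (S j).card = 2 * b (e.symm j) + 1 := by
    intro j
    rw [hS]
    rw [Finset.card_image_of_injective _ Int.cast_injective, Int.card_Icc]
    omega
  have sz := schwartz_zippel_sum_degreeOf hp S
  have hmaps : ∀ a ∈ {a : ι → ℤ | (∀ i, |a i| ≤ b i) ∧ eval (fun i => (a i : K)) Ψ = 0},
      (fun j => ((a (e.symm j) : ℤ) : K)) ∈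
        ((Fintype.piFinset S).filter fun x => eval x (rename e Ψ) = 0) := by
    rintro a ⟨h1, h2⟩
    rw [mem_filter, Fintype.mem_piFinset]
    refine ⟨fun j => ?_, ?_⟩
    · rw [hS]
      refine Finset.mem_image_of_mem _ ?_
      rw [Finset.mem_Icc]
      exact abs_le.1 (h1 _)
    · rw [eval_rename]
      have : ((fun j => ((a (e.symm j) : ℤ) : K)) ∘ e) = fun i => (a i : K) := by
        funext i
        simp
      rw [this, h2]
  have hinj : Set.InjOn (fun (a : ι → ℤ) (j : Fin n) => ((a (e.symm j) : ℤ) : K))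
      {a : ι → ℤ | (∀ i, |a i| ≤ b i) ∧ eval (fun i => (a i : K)) Ψ = 0} := by
    intro a _ a' _ h
    funext i
    have := congrFun h (e i)
    simpa using this
  have hfin : {a : ι → ℤ | (∀ i, |a i| ≤ b i) ∧ eval (fun i => (a i : K)) Ψ = 0}.Finite :=
    Set.Finite.of_injOn (f := fun (a : ι → ℤ) (j : Fin n) => ((a (e.symm j) : ℤ) : K))
      (fun a ha => Finset.mem_coe.2 (hmaps a ha)) hinj (Finset.finite_toSet _)
  refine ⟨hfin, ?_⟩
  have hcard : {a : ι → ℤ | (∀ i, |a i| ≤ b i) ∧ eval (fun i => (a i : K)) Ψ = 0}.ncard ≤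
      ((Fintype.piFinset S).filter fun x => eval x (rename e Ψ) = 0).card := by
    rw [← Set.ncard_coe_finset]
    exact Set.ncard_le_ncard_of_injOn (fun (a : ι → ℤ) (j : Fin n) => ((a (e.symm j) : ℤ) : K))
      (fun a ha => Finset.mem_coe.2 (hmaps a ha)) hinj (Finset.finite_toSet _)
  have hN0 : (0 : ℚ≥0) < N := by exact_mod_cast hN
  have h1 : ∑ j, (((rename e Ψ).degreeOf j : ℚ≥0) / ((S j).card : ℚ≥0)) ≤
      ((∑ j, (rename e Ψ).degreeOf j : ℕ) : ℚ≥0) / N := by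
    rw [Nat.cast_sum, Finset.sum_div]
    refine Finset.sum_le_sum fun j _ => ?_
    have h2 : (N : ℚ≥0) ≤ ((S j).card : ℚ≥0) := by
      rw [hSc]
      have := hb (e.symm j)
      exact_mod_cast (by omega : N ≤ 2 * b (e.symm j) + 1)
    gcongr
  have hP : (0 : ℚ≥0) < ∏ i, ((S i).card : ℚ≥0) := by
    refine Finset.prod_pos fun j _ => ?_
    rw [hSc]
    positivity
  have h3 := sz.trans h1
  rw [div_le_div_iff₀ hP hN0] at h3
  have h4 : ((Fintype.piFinset S).filter fun x => eval x (rename e Ψ) = 0).card * N ≤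
      (∑ j, (rename e Ψ).degreeOf j) * ∏ i, (S i).card := by exact_mod_cast h3
  have h5 : ∏ i, (S i).card = ∏ i, (2 * b i + 1) := by
    rw [Finset.prod_congr rfl fun j _ => hSc j]
    exact Equiv.prod_comp e.symm fun i => 2 * b i + 1
  rw [h5] at h4
  exact (Nat.mul_le_mul_right _ hcard).trans h4

/-- If a positive proportion of the integral points of growing boxes has the property `P`, then one of them is not a zero of a given nonzero polynomial. -/
theorem exists_good {K : Type} [Field K] [CharZero K] {ι : Type} [Fintype ι] {Θ : MvPolynomial ι K} (hΘ : Θ ≠ 0)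
    (b : ℕ → ι → ℕ) (hb : ∀ N i, N ≤ b N i) (P : (ι → ℤ) → Prop) (η : ℝ) (hη : 0 < η) (N0 : ℕ)
    (h : ∀ N, N0 ≤ N → η * ∏ i, (b N i : ℝ) ≤ Nat.card {a : ι → ℤ // (∀ i, |a i| ≤ b N i) ∧ P a}) :
    ∃ a : ι → ℤ, P a ∧ eval (fun i => (a i : K)) Θ ≠ 0 := by
  by_contra hcon
  push Not at hcon
  obtain ⟨D, hD⟩ := sz_box hΘ
  obtain ⟨N, hN⟩ := exists_nat_gt (max (N0 : ℝ) (D * 3 ^ Fintype.card ι / η))
  have hN1 : (N0 : ℝ) < N := lt_of_le_of_lt (le_max_left _ _) hN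
  have hN2 : (D * 3 ^ Fintype.card ι / η : ℝ) < N := lt_of_le_of_lt (le_max_right _ _) hN
  have hN0 : 0 < N := by
    have : (0 : ℝ) < N := lt_of_le_of_lt (Nat.cast_nonneg _) hN1
    exact_mod_cast this
  obtain ⟨hfin, hcard⟩ := hD (b N) N hN0 (hb N)
  have h1 := h N (by exact_mod_cast hN1.le)
  have h2 : Nat.card {a : ι → ℤ // (∀ i, |a i| ≤ b N i) ∧ P a} ≤
      {a : ι → ℤ | (∀ i, |a i| ≤ b N i) ∧ eval (fun i => (a i : K)) Θ = 0}.ncard := by
    have : {a : ι → ℤ | (∀ i, |a i| ≤ b N i) ∧ P a} ⊆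
        {a : ι → ℤ | (∀ i, |a i| ≤ b N i) ∧ eval (fun i => (a i : K)) Θ = 0} :=
      fun a ha => ⟨ha.1, hcon a ha.2⟩
    exact Set.ncard_le_ncard this hfin
  have h3 : (∏ i, (2 * b N i + 1) : ℕ) ≤ 3 ^ Fintype.card ι * ∏ i, b N i := by
    rw [← Finset.card_univ, ← Finset.prod_const, ← Finset.prod_mul_distrib]
    refine Finset.prod_le_prod' fun i _ => ?_
    have := hb N i
    omega
  have h4 : (({a : ι → ℤ | (∀ i, |a i| ≤ b N i) ∧ eval (fun i => (a i : K)) Θ = 0}.ncard : ℕ) : ℝ) * N ≤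
      D * (3 ^ Fintype.card ι * ∏ i, (b N i : ℝ)) := by
    have h5 := hcard.trans (Nat.mul_le_mul_left D h3)
    exact_mod_cast h5
  have h6 : (0 : ℝ) < ∏ i, (b N i : ℝ) := by
    refine Finset.prod_pos fun i _ => ?_
    have := hb N i
    exact_mod_cast (by omega : 0 < b N i)
  have h7 : (Nat.card {a : ι → ℤ // (∀ i, |a i| ≤ b N i) ∧ P a} : ℝ) ≤
      ({a : ι → ℤ | (∀ i, |a i| ≤ b N i) ∧ eval (fun i => (a i : K)) Θ = 0}.ncard : ℕ) := by
    exact_mod_cast h2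
  have h8 : η * (∏ i, (b N i : ℝ)) * N ≤ D * (3 ^ Fintype.card ι * ∏ i, (b N i : ℝ)) :=
    (mul_le_mul_of_nonneg_right (h1.trans h7) (Nat.cast_nonneg _)).trans h4
  have h9 : (D * 3 ^ Fintype.card ι : ℝ) < N * η := (div_lt_iff₀ hη).1 hN2
  have h10 : (D * 3 ^ Fintype.card ι : ℝ) * ∏ i, (b N i : ℝ) < N * η * ∏ i, (b N i : ℝ) :=
    mul_lt_mul_of_pos_right h9 h6
  linarith

end HND
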