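import Pool.Agent.Lib.MP_10e784_agDM.Fam
import Pool.Agent.Lib.MP_10e784_agDM.Sz
import Pool.Agent.Lib.MP_10e784_agQ.QFin

/-! MP_10e784_ag: the plane quartics which violate the Hasse principle are Zariski dense -/

set_option autoImplicit false

namespace HND

open MvPolynomial HNQ

/-- the quartic with given coefficients -/
def dt (a : Fin 12 → ℤ) : Dt := (((a 6, a 7, a 8), (a 9, a 10, a 11)), ![a 0, a 1, a 2, a 3, a 4, a 5])

theorem cf_dt (a : Fin 12 → ℤ) : cf (dt a) = a := by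
  funext i
  fin_cases i <;> rfl

theorem dt_cf (q : Dt) : dt (cf q) = q := by
  obtain ⟨⟨⟨v0, v1, v2⟩, ⟨w0, w1, w2⟩⟩, c⟩ := q
  have : (![c 0, c 1, c 2, c 3, c 4, c 5] : Fin 6 → ℤ) = c := by
    funext i
    fin_cases i <;> rfl
  simp only [dt, cf]
  exact congrArg (fun c' => (((v0, v1, v2), (w0, w1, w2)), c')) this

/-- the sides of the box -/
def bs (N : ℕ) (i : Fin 12) : ℕ := if (i : ℕ) < 6 then N ^ 5 else N

theorem inBox_iff (N : ℕ) (a : Fin 12 → ℤ) : InBox (N ^ 5) N (dt a) ↔ ∀ i, |a i| ≤ bs N i := by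
  simp only [InBox, dt, bs]
  constructor
  · rintro ⟨⟨h6, h7, h8⟩, ⟨h9, h10, h11⟩, h⟩ i
    have h0 := h 0
    have h1 := h 1
    have h2 := h 2
    have h3 := h 3
    have h4 := h 4
    have h5 := h 5
    fin_cases i
    · simpa using h0
    · simpa using h1
    · simpa using h2
    · simpa using h3
    · simpa using h4
    · simpa using h5
    · simpa using h6
    · simpa using h7
    · simpa using h8
    · simpa using h9
    · simpa using h10
    · simpa using h11
  · intro h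
    refine ⟨⟨?_, ?_, ?_⟩, ⟨?_, ?_, ?_⟩, fun i => ?_⟩
    · simpa using h 6
    · simpa using h 7
    · simpa using h 8
    · simpa using h 9
    · simpa using h 10
    · simpa using h 11
    · fin_cases i
      · simpa using h 0
      · simpa using h 1
      · simpa using h 2
      · simpa using h 3
      · simpa using h 4
      · simpa using h 5

theorem bs_le (N : ℕ) (i : Fin 12) : N ≤ bs N i := by
  unfold bs
  split_ifs
  · exact Nat.le_self_pow (by norm_num) N
  · exact le_rfl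

theorem bs_prod (N : ℕ) : ∏ i, (bs N i : ℝ) = (N : ℝ) ^ (6 * 5 + 6) := by
  have : ∏ i, bs N i = N ^ 36 := by
    simp [bs, Fin.prod_univ_succ]
    ring
  rw [← Nat.cast_prod, this]
  push_cast
  rfl

/-- the property of the quartics -/
def Good (q : Dt) : Prop := Smooth q ∧ HasPoint ℝ q ∧ (∀ (p : ℕ) [Fact p.Prime], HasPoint ℚ_[p] q) ∧ ¬ HasOddPoint q

theorem many : ∃ η : ℝ, 0 < η ∧ ∃ N0 : ℕ, ∀ N, N0 ≤ N → η * ∏ i, (bs N i : ℝ) ≤
    Nat.card {a : Fin 12 → ℤ // (∀ i, |a i| ≤ bs N i) ∧ Good (dt a)} := by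
  obtain ⟨c, C, hc, N0, h⟩ := thm_Q 5 le_rfl
  refine ⟨c, hc, N0, fun N hN => ?_⟩
  rw [bs_prod]
  refine (h N hN).2.trans (le_of_eq ?_)
  norm_cast
  refine Nat.card_congr ⟨fun q => ⟨cf q.1, ?_⟩, fun a => ⟨dt a.1, ?_⟩, fun q => ?_, fun a => ?_⟩
  · have h1 := q.2
    refine ⟨(inBox_iff N (cf q.1)).1 ?_, ?_⟩
    · rw [dt_cf]
      exact h1.1
    · rw [dt_cf]
      exact h1.2
  · exact ⟨(inBox_iff N a.1).2 a.2.1, a.2.2⟩
  · exact Subtype.ext (dt_cf q.1)
  · exact Subtype.ext (cf_dt a.1)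

theorem ps_qs {S : Type} [CommRing S] (s : Fin 15 → S) (x y z : S) :
    ps s x y z = qs ![s 0, s 1, s 2, s 3, s 4, s 5, s 6, 1, s 7, s 8, s 9, s 10] ![s 11, s 12, s 13, s 14] x y z := by
  simp [ps, qs]

instance : Finite M4 := by
  refine Finite.of_injective (fun m : M4 => fun i : Fin 3 => (⟨m.1 i, ?_⟩ : Fin 5)) ?_
  · have h1 := m.2
    rw [Finsupp.degree_eq_sum] at h1
    have h2 : m.1 i ≤ ∑ j, m.1 j := Finset.single_le_sum (fun _ _ => Nat.zero_le _) (Finset.mem_univ i)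
    omega
  · intro m m' h
    refine Subtype.ext (Finsupp.ext fun i => ?_)
    have := congrArg Fin.val (congrFun h i)
    exact this

theorem eval_aeval' {σ τ K : Type} [CommRing K] (c : τ → MvPolynomial σ K) (a : σ → K) (Φ : MvPolynomial τ K) :
    eval a (aeval c Φ) = eval (fun m => eval a (c m)) Φ := by
  induction Φ using MvPolynomial.induction_on with
  | C r => simp
  | add p q hp hq => simp only [map_add, hp, hq]
  | mul_X p i hp => simp only [map_mul, hp, aeval_X, eval_X]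

theorem isDense : IsDense := by
  classical
  intro Φ hΦ
  let _ : Fintype M4 := Fintype.ofFinite M4
  have h1 : aeval (co ℂ) Φ ≠ 0 :=
    dominant (co ℂ) (fun j => (pt j : ℂ)) (fun n j => (dir (n.1 0) (n.1 1) j : ℂ)) 2 two_ne_zero (fun n m => rank n m) Φ hΦ
  have h2 : (1 - X 11 * X 12 : MvPolynomial (Fin 15) ℂ) ≠ 0 := by
    intro h
    have := congrArg (eval fun _ => (0 : ℂ)) h
    simp at this
  obtain ⟨s, hs⟩ : ∃ s : Fin 15 → ℤ, eval (fun j => (s j : ℂ)) (aeval (co ℂ) Φ * (1 - X 11 * X 12)) ≠ 0 := by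
    by_contra hcon
    push Not at hcon
    refine mul_ne_zero h1 h2 (funext_set (fun _ => Set.range fun z : ℤ => (z : ℂ)) (fun _ => ?_) fun x hx => ?_)
    · exact Set.infinite_range_of_injective Int.cast_injective
    · choose s hs using fun j => hx j (Set.mem_univ j)
      have h3 := hcon s
      rw [map_zero]
      rw [← h3]
      congr 2
      funext j
      exact (hs j).symm
  rw [map_mul] at hs
  have hs1 := left_ne_zero_of_mul hs
  have hs2 := right_ne_zero_of_mul hs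
  obtain ⟨g, hg⟩ : ∃ g : Fin 4 → ℤ, g = ![s 11, s 12, s 13, s 14] := ⟨_, rfl⟩
  have hdet : 1 - g 0 * g 1 ≠ 0 := by
    intro h
    apply hs2
    rw [hg] at h
    have h' : (1 : ℤ) - s 11 * s 12 = 0 := h
    have h'' : (1 : ℂ) - s 11 * s 12 = 0 := by exact_mod_cast h'
    simpa using h''
  obtain ⟨c, hc⟩ : ∃ c : M4 → MvPolynomial (Fin 12) ℂ, c = fun m => coeff m.1
      (qs (fun j => C (X j)) (fun j => C (C ((g j : ℤ) : ℂ))) (X 0) (X 1) (X 2) : MvPolynomial (Fin 3) (MvPolynomial (Fin 12) ℂ)) := ⟨_, rfl⟩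
  have hev : ∀ a : Fin 12 → ℂ, eval a (aeval c Φ) =
      eval (fun m : M4 => coeff m.1 (qs (fun j => C (a j)) (fun j => C ((g j : ℤ) : ℂ)) (X 0) (X 1) (X 2) :
        MvPolynomial (Fin 3) ℂ)) Φ := by
    intro a
    have e1 : eval a (aeval c Φ) = eval (fun m => eval a (c m)) Φ := eval_aeval' c a Φ
    rw [e1]
    congr 2
    funext m
    rw [hc]
    have e2 := qs_map (MvPolynomial.map (σ := Fin 3) (eval a)) (fun j => C (X j)) (fun j => C (C ((g j : ℤ) : ℂ))) (X 0) (X 1) (X 2)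
    simp only [map_C, map_X, eval_X, eval_C] at e2
    rw [← e2, coeff_map]
  have hΘ : aeval c Φ ≠ 0 := by
    intro h0
    apply hs1
    have e3 : eval (fun j => (s j : ℂ)) (aeval (co ℂ) Φ) = eval (fun m => aeval (fun j => (s j : ℂ)) (co ℂ m)) Φ := by
      rw [eval_aeval']
      rfl
    rw [e3]
    have e4 := hev ![(s 0 : ℂ), s 1, s 2, s 3, s 4, s 5, s 6, 1, s 7, s 8, s 9, s 10]
    rw [h0, map_zero] at e4
    rw [e4]
    congr 2
    funext m
    rw [co_aeval, ps_qs]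
    congr 2
    · funext j
      fin_cases j <;> simp
    · funext j
      rw [hg]
      fin_cases j <;> simp
  obtain ⟨η, hη, N0, hmany⟩ := many
  obtain ⟨a, ⟨hsm, hR, hp, hodd⟩, ha⟩ := exists_good hΘ bs bs_le (fun a => Good (dt a)) η hη N0 hmany
  rw [hev] at ha
  have e5 : (fun m : {m : Fin 3 →₀ ℕ // m.degree = 4} => ((coeff m.1 (fg (dt a) g) : ℤ) : ℂ)) = fun m : M4 => coeff m.1 (qs (fun j => C ((a j : ℤ) : ℂ))
      (fun j => C ((g j : ℤ) : ℂ)) (X 0) (X 1) (X 2) : MvPolynomial (Fin 3) ℂ) := by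
    funext m
    have e6 := qs_map (MvPolynomial.map (σ := Fin 3) (Int.castRingHom ℂ)) (fun j => C (a j)) (fun j => C (g j)) (X 0) (X 1) (X 2)
    simp only [map_C, map_X] at e6
    refine Eq.trans ?_ (congrArg (coeff m.1) e6)
    rw [coeff_map, fg_eq, cf_dt]
    rfl
  rw [← e5] at ha
  have hO : ∀ (K : Type) [Field K] [NumberField K], Odd (Module.finrank ℚ K) → ¬ HasZero K (fg (dt a) g) := by
    intro K _ _ hK h
    exact hodd ⟨K, inferInstance, inferInstance, hK, (hasZero_fg _ g hdet).1 h⟩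
  exact ⟨fg (dt a) g, hom_fg _ _, smooth_fg _ hsm g hdet, (hasZero_fg _ g hdet).2 hR, fun p _ => (hasZero_fg _ g hdet).2 (hp p), hO, ha⟩

end HND
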